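import Pool.Agent.R731.HS.Facts

/-!
# No `(κ,μ,ν)_i`-nullity condition on the structure vectors `ξ_i` of a real hypersurface of the
two-plane Grassmannians `G₂(ℂ^{m+2})` and `SU(2,m)/S(U(2)×U(m))`, `m ≥ 3` (MP_061f3a_gt, Q1)
-/

set_option autoImplicit false

namespace Pool.Agent.Results.MP_061f3a_gt.NoNullity

open Pool.Agent.R731.HS Matrix Complex
open scoped ContDiff Topology ComplexOrder Matrix.Norms.Elementwise

attribute [-instance] instTopologicalSpaceMatrix
attribute [-instance] Matrix.instUniformSpace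

/-- For `m ≥ 3` and `ε = 1` (the Grassmannian `G₂(ℂ^{m+2})` in its big cell) or `ε = -1` (the
complex hyperbolic two-plane Grassmannian as bounded domain), with its symmetric metric `met ε`:
for every piece of real hypersurface `φ : U → Om ε m` with unit normal `N`, every point `x` and
every unit element `J_q : X ↦ X q` of the quaternionic structure at `φ x`, the
`(κ,μ,ν)`-nullity identity for `ξ_q = -J_q N` fails at `x`, for all reals `κ`, `μ`, `ν`. -/
theorem result (m : ℕ) (hm : 3 ≤ m) (ε : ℝ) (hε : ε = 1 ∨ ε = -1) :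
    (ε = 1 → Om ε m = Set.univ) ∧ KaehlerModel m ε ∧
    ∀ (U : Set (EuclideanSpace ℝ (Fin (4 * m - 1))))
      (φ N : EuclideanSpace ℝ (Fin (4 * m - 1)) → Matrix (Fin m) (Fin 2) ℂ),
      HypSurf (met ε) (Om ε m) U φ N → ∀ x ∈ U, ∀ q : Matrix (Fin 2) (Fin 2) ℂ, IsQuat ε (φ x) q →
        ∀ κ μ ν : ℝ, ¬ NullAt (Gam ε) (met ε) φ N (fun X => X * q) (-(N x * q)) κ μ ν x := by
  refine ⟨?_, kaehlerModel m hε, ?_⟩
  · rintro rfl
    exact Set.eq_univ_of_forall mem_Om_one
  · intro U φ N hyp x hx q hq κ μ ν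
    exact main hm hε hyp hx q hq.sq hq.skew _ κ μ ν

end Pool.Agent.Results.MP_061f3a_gt.NoNullity
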